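import Pool.Agent.Poonen.FinalSix

/-!
# Poonen's conjecture when the denominator of `c` has at most six distinct prime factors

Let `c` be a rational number whose denominator has at most six distinct prime factors.  Then every
rational periodic point of `y ↦ y ^ 2 + c` has exact period at most `3`.

Idea of the proof.  Let `X_0, …, X_{N-1}` be a rational cycle of exact period `N ≥ 4`.  All
`X_i + X_j` (`i ≠ j`) are units outside the primes dividing `den c`.

* If `p` does not divide `den c` then `N ≤ 2` (`p = 2`), `N ≤ 3` (`p = 3`), and `N = l` or
  `N = l · ord(λ)` with `l` the exact period of `X_0` modulo `p` and `λ` the multiplier (`p ≥ 5`).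
  This forces at least seven of the primes up to `23` to divide `den c` if `N ≥ 7`, `N ≠ 8`, and
  forces `den c` to have the prime factors `2, 3, 7, 11, 19, 23` if `N = 8`.
* At a prime `t ∣ den c` the valuations of all `X_i + X_j` are given, up to one factor, by a
  primitive `0/1` word of length `N`.  Modulo a prime `p` of good reduction the discrete logarithms
  of the `X_i + X_j` are combinations of the word vectors; a finite check gives the list of all
  sets of at most `k` words that are compatible with this.
* `N = 5`: combining the lists for `p = 13, 17, 19, 41, 47, 59` along a decision tree
  (which of these primes are bad) leaves no set of at most six words.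
* `N = 6`: a search over the sets of at most six words with the product formula and the order of
  the points on the real line (`Pool.Agent.FPS.seven_primes`).
* `N = 8`: the list for `p = 73` and the two primes `7, 11` that are not squares modulo `73` is
  empty.
* `N = 4` is excluded by a descent (Morton).
-/

namespace Pool.Agent.Results.MP_7564fc_nt.AtMostSixPrimes

/-- If the denominator of the rational number `c` has at most six distinct prime factors, then
every rational periodic point of `y ↦ y ^ 2 + c` has exact period at most `3`. -/
theorem result : ∀ c : ℚ, c.den.primeFactors.card ≤ 6 → ∀ x : ℚ, ∀ n : ℕ, 0 < n →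
    Function.IsPeriodicPt (fun y : ℚ => y ^ 2 + c) n x →
    Function.minimalPeriod (fun y : ℚ => y ^ 2 + c) x ≤ 3 :=
  Poonen.final_six

end Pool.Agent.Results.MP_7564fc_nt.AtMostSixPrimes
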