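import Pool.Agent.FPS4.Final6

/-!
Rational cycles of length six of `y ^ 2 + c`: at least seven bad primes, even at least seven bad
primes at which the cycle splits into its two residue classes in pairwise different ways.
-/

namespace Pool.Agent.Results.MP_7564fc_nt.PeriodSixSevenWords

theorem result (c α : ℚ) (h : Function.minimalPeriod (fun y : ℚ => y ^ 2 + c) α = 6) :
    7 ≤ c.den.primeFactors.card ∧
    7 ≤ ((c.den.primeFactors.filter fun p => 1 < padicNorm p (2 * α)).image fun p =>
      (Finset.range 6).filter fun i =>
        padicNorm p ((fun y : ℚ => y ^ 2 + c)^[i] α - α) = padicNorm p (2 * α)).card := by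
  have hc := Pool.Agent.FPS.cyc_of_minimalPeriod (c := c) (a := α) (by rw [h]; norm_num)
  rw [h] at hc
  exact ⟨Pool.Agent.FPS.seven_primes hc, Pool.Agent.FPS.seven_words hc⟩

end Pool.Agent.Results.MP_7564fc_nt.PeriodSixSevenWords
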