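import Pool.Agent.Ppr5.Main

/-!
# The number of rational preperiodic points of `x ^ 2 + c` is `O(s log log s)`

Let `c` be rational and let `s ≥ 3` be the number of the primes dividing the denominator of `c`.
Then the map `y ↦ y ^ 2 + c` has at most `C s (1 + log log s)` rational preperiodic points, where
`C` is an absolute constant. In particular no rational point has a larger exact period.

The proof. Let `D ^ 2` be the denominator of `c` and `X / D` the preperiodic points. At every odd
prime power `p ^ k` exactly dividing `D` each `X` is one of the two square roots `± a` of
`- c D ^ 2` modulo `p ^ k`, and `X / a` is the value at `D / a` of a power series which depends on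
the signs of the forward orbit only. The product formula for the differences of the points shows
that the sign patterns of the primes are equidistributed and nearly orthogonal on average. Suppose
that there are too many points. Then the jets of order `< M` (`M` a small multiple of `log s`) at
all these sign patterns are linearly independent on the forms of degree `M / 3`: a product of
powers of the linear form dual to a pattern kills the patterns with small correlation, and for
each of the few other patterns there is an explicit form of degree `log M + O(1)` which vanishes
there to the order `M`. In the hardest case one pattern is a block code of the other. Then a sum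
over the `2 ^ K` words of length `K` in front of a tail, with one linear factor for every letter,
is the form: summing over the letters divides the degree of the dependence on the tail by `2 ^ K`
at the second pattern, while at the first pattern the factors select the words with prescribed
image letters (a wrong letter costs as many powers of the parameter as there are correct letters
after it). If no such form separates the patterns, then the code would send the two constant
words to the same word, and a quadratic form does it. Finally the determinant of the evaluation
at the points and of the jets is a nonzero integer that is divisible by almost all of `D ^ M`,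
but Hadamard's inequality bounds it by a smaller number.
-/

set_option autoImplicit false

open Function

namespace Pool.Agent.Results.MP_7564fc_nt.PreperiodicLogLog

/-- The rational preperiodic points of `y ↦ y ^ 2 + c`: two different iterates are equal. -/
def PrePer (c : ℚ) : Set ℚ :=
  {x : ℚ | ∃ m n : ℕ, m < n ∧ (fun y : ℚ => y ^ 2 + c)^[m] x = (fun y : ℚ => y ^ 2 + c)^[n] x}

theorem result : ∃ C : ℝ, 0 < C ∧ ∀ (c : ℚ) (s : ℕ),
    s = c.den.primeFactors.card → 3 ≤ s →
    (PrePer c).Finite ∧
    ((PrePer c).ncard : ℝ) ≤ C * (s * (1 + Real.log (Real.log s))) ∧
    ∀ x : ℚ, (minimalPeriod (fun y : ℚ => y ^ 2 + c) x : ℝ) ≤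
      C * (s * (1 + Real.log (Real.log s))) := by
  obtain ⟨C, hC, h⟩ := Pool.Agent.Ppr5.main_bound5
  refine ⟨C, hC, fun c s hs h3 => ?_⟩
  subst hs
  obtain ⟨hfin, hcard⟩ := h c h3
  refine ⟨hfin, hcard, fun x => le_trans ?_ hcard⟩
  set f := (fun y : ℚ => y ^ 2 + c) with hf
  have hsub : ((Finset.range (minimalPeriod f x)).image (fun k => f^[k] x) : Set ℚ) ⊆
      Pool.Agent.Ppr.PrePer c := by
    intro y hy
    simp only [Finset.coe_image, Finset.coe_range, Set.mem_image, Set.mem_Iio] at hy
    obtain ⟨k, hk, rfl⟩ := hy
    refine ⟨0, minimalPeriod f x, by omega, ?_⟩
    change f^[k] x = f^[minimalPeriod f x] (f^[k] x)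
    rw [← iterate_add_apply, add_comm, iterate_add_apply, iterate_minimalPeriod]
  have hinj : Set.InjOn (fun k => f^[k] x) (Finset.range (minimalPeriod f x)) := by
    intro a ha b hb hab
    rw [Finset.coe_range, Set.mem_Iio] at ha hb
    exact (iterate_eq_iterate_iff_of_lt_minimalPeriod ha hb).1 hab
  have h1 : minimalPeriod f x = ((Finset.range (minimalPeriod f x)).image
      (fun k => f^[k] x)).card := by
    rw [Finset.card_image_of_injOn hinj, Finset.card_range]
  have h2 := Set.ncard_le_ncard hsub hfin
  rw [Set.ncard_coe_finset] at h2
  exact_mod_cast h1.le.trans h2

end Pool.Agent.Results.MP_7564fc_nt.PreperiodicLogLog
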