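import Pool.Agent.Poonen40.Param

/-!
# Poonen's conjecture for almost all parameters with a cycle of length at least `3`

Let `P k N` be the set of the rational numbers `c` with denominator at most `N ^ 2`, and arbitrary
numerator, for which `y ↦ y ^ 2 + c` has a rational periodic point of exact period at least `k`.
These sets are finite for `k ≥ 3`, `P 3 N` has `N ^ (2 / 3 + o(1))` elements, and `P 4 N` (the
counterexamples to Poonen's conjecture) has at most `N ^ (9 / 14 + o(1))` elements.

The proof: for a cycle `x_0, x_1, ...` and a component `B` (a prime power, up to a factor `2`) of the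
denominator `D` of the points, every sum `x_i + x_j` is `± (2 x_0) ^ e` up to a relative error of
size `1 / B`, where the sign and the exponent `e ≤ 1` can be read off from the signs of the points
relative to `x_0`. A monomial in the sums with total exponent `0` at all components of a divisor `G`
of `D` is therefore a number `f` composed of the primes of `D / G` with `f ^ 2 ≡ 1` modulo `G`; if
`f ≠ ± 1` then `G` is determined by `D / G` up to `N ^ o(1)` choices. Averaging over the cycle with
suitable weights and potentials gives such an `f` with `G ≥ D ^ (5 / 14)` for the lengths at least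
`5` (length `4` is excluded by Morton's theorem), and with `G ≥ D ^ (1 / 3)` for length `3`.
-/

set_option autoImplicit false

open Function Filter Topology

namespace Pool.Agent.Results.MP_7564fc_nt.SparseParameters

/-- The rational numbers `c` with denominator at most `N ^ 2` for which `y ↦ y ^ 2 + c` has a
rational periodic point of exact period at least `k`. -/
def P (k N : ℕ) : Set ℚ :=
  {c : ℚ | c.den ≤ N ^ 2 ∧ ∃ x : ℚ, k ≤ minimalPeriod (fun y : ℚ => y ^ 2 + c) x}

theorem result :
    (∀ N : ℕ, (P 3 N).Finite) ∧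
    (∀ ε : ℝ, 0 < ε → ∃ C : ℝ, ∀ N : ℕ, 1 ≤ N →
      ((P 4 N).ncard : ℝ) ≤ C * (N : ℝ) ^ (9 / 14 + ε)) ∧
    (∀ ε : ℝ, 0 < ε → ∃ k C : ℝ, 0 < k ∧ ∀ N : ℕ, 4 ≤ N →
      k * (N : ℝ) ^ (2 / 3 - ε) ≤ ((P 3 N).ncard : ℝ) ∧
        ((P 3 N).ncard : ℝ) ≤ C * (N : ℝ) ^ (2 / 3 + ε)) ∧
    Tendsto (fun N : ℕ => ((P 4 N).ncard : ℝ) / ((P 3 N).ncard : ℝ)) atTop (𝓝 0) := by
  refine ⟨fun N => Pool.Agent.Poonen40.PP_finite le_rfl, fun ε hε =>
    Pool.Agent.Poonen40.param_four hε, fun ε hε => ?_, Pool.Agent.Poonen40.ratio_tendsto⟩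
  obtain ⟨k, hk, h1⟩ := Pool.Agent.Poonen40.param_three_ge hε
  obtain ⟨C, h2⟩ := Pool.Agent.Poonen40.param_three hε
  exact ⟨k, C, hk, fun N hN => ⟨h1 N hN, h2 N (by omega)⟩⟩

end Pool.Agent.Results.MP_7564fc_nt.SparseParameters
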